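import Pool.Agent.W876.Cut.Ma
import Pool.Agent.W910.FC.Collapse
import Pool.Agent.Helper9CC.Proj

/-!
# MP_0eabd7_lc, Q2: consistently there is no algebra with property (P) of countable length above one

Definitions (all in `Pool.Agent.W876.Cut.Defs`):

* `Quo J` is the quotient Boolean algebra `B/J` of `B` by the ideal `J`.
* `PropP B` is property (P): `B/J ≅ B` for every ideal `J` with `B/J` uncountable.
* `cb B β` is the Cantor-Bendixson ideal `I_β(B)`.
* `CardSeq B κ δ`: `B` is superatomic, `δ` is the least ordinal with `B/I_δ` finite, `B/I_β` has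
  `κ` atoms for every `β < δ`, and `B/I_δ` has exactly one atom.
* `MAAlephOne` is Martin's axiom for `ℵ₁` dense sets.

The forcing language is the one of `Pool.Agent.Helper669.Forcing`; `MartinHolds P Om1` is the
translation of `MartinFor Om1` into this language (both in `Pool.Agent.W684.FM.Defs`).
-/

namespace Pool.Agent.Results.MP_0eabd7_lc.ForcedCountable

open Pool.Agent.W876.Cut Pool.Agent.Helper669.Forcing Pool.Agent.W684.FM Pool.Agent.W684

/-- the two forms of Martin's axiom -/
theorem maAlephOne_of (h : MartinAxiomAleph1) : MAAlephOne := by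
  intro P _ _ hP D hD hd
  obtain ⟨G, h1, h2, h3, h4⟩ := h P (fun A hA => by
    by_contra hc
    obtain ⟨p, hp, q, hq, hne, r, hr⟩ := hP A hc
    exact hA p hp q hq hne ⟨r, hr⟩) D hD (fun d hd' p => hd d hd' p)
  exact ⟨G, h1, h2, h3, h4⟩

/-- (1) Some forcing notion forces, below every condition, that `ω₁` is preserved, that Martin's
axiom for `ℵ₁` dense sets holds and that the continuum is at most `ℵ₂`. (2) The plain form of this
forced sentence implies `MAAlephOne`. (3) `MAAlephOne` implies that for no ordinal `1 < α < ω₁`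
there is a Boolean algebra with property (P) and cardinal sequence `⟨ℵ₁, ℵ₁, …, 1⟩` of
length `α`. -/
theorem result :
    (∃ (P : Type) (_ : Preorder P), Nonempty P ∧ ∀ p : P,
      p ∈ OmegaOnePreserved P ∧ p ∈ MartinHolds P Om1 ∧
        p ∈ ContinuumLe P (Cardinal.aleph 2 : Cardinal.{0}).out) ∧
    (MartinFor Om1 → MAAlephOne) ∧
    (MAAlephOne → ∀ α : Ordinal.{0}, 1 < α → α < Ordinal.omega 1 →
      ¬ ∃ (B : Type) (_ : BooleanAlgebra B), PropP B ∧ CardSeq B (Cardinal.aleph 1) α) := by
  refine ⟨Pool.Agent.W910.FC.exists_forcing, fun h => maAlephOne_of (martinFor_om1_iff.1 h), ?_⟩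
  rintro hMA α h1 hα ⟨B, hB, hP, hC⟩
  rw [← Cardinal.ord_aleph] at hα
  exact no_cardSeq hMA h1 hα hP hC

end Pool.Agent.Results.MP_0eabd7_lc.ForcedCountable
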